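import Pool.Agent.TH133.Cancel

/-!
# Cancellation for Chow-Kunneth decompositions

`𝒱` is a class of smooth projective geometrically irreducible varieties over the field `k` closed
under products (for example all of them over the complex numbers), `C` the Chow groups with rational
coefficients (in the form of their formal properties, `IsChowProj`) and `H` a Weil cohomology theory
(`IsWeilProj`), for example Betti cohomology.

Let `X` and `Y` be varieties such that `h(Y) = h(X)(-r) ⊕ N`, the decomposition being given by
correspondences `Φ` from `X` to `Y` and `Ψ` from `Y` to `X` of degrees `r` and `-r` with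
`Ψ ∘ Φ = Δ_X`; the motive `N` is cut out by the idempotent `e = Δ_Y - Φ ∘ Ψ`. Assume that all
endomorphisms `e ∘ γ ∘ e` of `N` are algebraic over the rational numbers. (By the theorems of Kimura
and Jannsen this is so if `N` is finite-dimensional in the sense of Kimura, for example if `Y` is the
blow-up of `X` in a subvariety with finite-dimensional motive, such as a point, a curve or an
abelian variety.) Then `Y` has a Chow-Kunneth decomposition if and only if `X` has one and the
Kunneth components of the diagonal of `Y` are algebraic.

That the decomposition can be cancelled, i.e. passes from `Y` to `X`, is not formal, because a direct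
summand of a motive with a Chow-Kunneth decomposition is not known to have such a decomposition. The
proof shows that `N` has the exchange property: a ring all of whose elements are algebraic over a
field is an exchange ring.
-/

open CategoryTheory AlgebraicGeometry

set_option autoImplicit false

universe u v w

namespace Pool.Agent.Results.MP_524776_ag.Cancellation

open Pool.Agent.H914 Pool.Agent.W492.BB Pool.Agent.TH133 Pool.Agent.W550.Corr

/-- Let `h(Y) = h(X)(-r) ⊕ N` by means of correspondences `Φ`, `Ψ` with `Ψ ∘ Φ = Δ_X`, and assume
that all endomorphisms of `N` are algebraic over `ℚ`. Then `Y` has a Chow-Kunneth decomposition if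
and only if `X` has one and the Kunneth components of the diagonal of `Y` are algebraic. -/
theorem result {k : Type u} [Field k] {𝒱 : VarClass k} (C : TheoryData.{u, v, 0} 𝒱 ℚ)
    [IsChowProj C] {K : Type w} [Field K] (H : WeilTheoryData.{u, v, w} C K) [IsWeilProj H]
    (X Y : 𝒱.Obj) (r : ℕ) (hr : X.dim + r ≤ Y.dim) (Φ : C.A (X.prod Y)) (Ψ : C.A (Y.prod X))
    (hΦ : C.Deg ((X.dim : ℤ) + r) Φ) (hΨ : C.Deg ((Y.dim : ℤ) - r) Ψ)
    (h : C.comp Φ Ψ = dg C X)
    (halg : ∀ γ : C.A (Y.prod Y), C.Deg Y.dim γ → IsAlgebraicCor C
      (C.comp (C.comp (dg C Y - C.comp Ψ Φ) γ) (dg C Y - C.comp Ψ Φ))) :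
    (∃ π : ℕ → C.A (Y.prod Y), IsCK H Y π) ↔
      (∃ ρ : ℕ → C.A (X.prod X), IsCK H X ρ) ∧ HasKunneth H Y :=
  ⟨fun ⟨_, hπ⟩ => ⟨exists_CK_of_summand hr hΦ hΨ h halg hπ, hπ.hasKunneth⟩,
    fun ⟨⟨_, hρ⟩, hK⟩ => exists_CK_of_part hr hΦ hΨ h halg hK hρ⟩

end Pool.Agent.Results.MP_524776_ag.Cancellation
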