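import Pool.Agent.TH90.Kim.CKLight

/-!
# Chow–Künneth decompositions of tensor factors

`𝒜` is a `ℚ`-linear symmetric monoidal category with duals in which the endomorphisms of the unit
object are the rational multiples of the identity, and `F` is a graded realisation: a symmetric
monoidal functor to finite-dimensional graded vector spaces over a field `K` of characteristic zero
(`GradedRealisation`). The example is the category of Chow motives over `ℂ` with rational
coefficients, with Betti cohomology; for the motive of a smooth projective variety `X`,
`ChowKunneth` is a Chow–Künneth decomposition of `X`, and `NilpotentKernel` says that the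
homologically trivial correspondences of degree zero on `X` are nilpotent.

`T P n` is the `n`-th tensor power of `P`, and `KimuraFinite P` says that `P` is finite-dimensional
in the sense of Kimura: it is the direct sum of an object with a vanishing exterior power and an
object with a vanishing symmetric power.

Theorem. Let `M` and `N` be objects with non-zero realisation, and `X = M^{⊗ (n + 1)} ⊗ N`.

(1) If `X` has a Chow–Künneth decomposition and its homologically trivial endomorphisms are
nilpotent, then both hold for `M` and for `N`.

(2) In particular, `M` and `N` have Chow–Künneth decompositions if `X` is finite-dimensional in the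
sense of Kimura and its Künneth projectors are algebraic.

Proof: The partial trace of the Künneth projector of `M ⊗ N` of degree `n` acts on the part of `M`
of degree `a` as multiplication with `(-1)^(n-a)` times the dimension of the part of `N` of degree
`n - a`. If `b` is the lowest degree in which `N` has a non-zero part, these endomorphisms form a
triangular system for the projectors of `M`, with the non-zero number of degree `b` on the diagonal.
Hence the Künneth projectors of `M` are algebraic. If `g` is the partial trace over `M` of the
parity of `M ⊗ N`, the trace of `g` is the product of the total dimensions, which is not zero, and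
the partial trace over `N` of `f^k ⊗ g` is `tr (g) f^k`; so a homologically trivial endomorphism `f`
of `M` is nilpotent, because `f ⊗ 1` is. Then the projectors of `M` lift to orthogonal idempotents.
-/

open CategoryTheory MonoidalCategory Limits BraidedCategory

universe u v w

namespace Pool.Agent.Results.MP_524776_ag.TensorFactors

open Pool.Agent.TH90.Kim

/-- Chow–Künneth decompositions of tensor factors. -/
theorem result {𝒜 : Type u} [Category.{v} 𝒜] [MonoidalCategory 𝒜] [SymmetricCategory 𝒜]
    [Preadditive 𝒜] [MonoidalPreadditive 𝒜] [Linear ℚ 𝒜] [MonoidalLinear ℚ 𝒜]
    [∀ X : 𝒜, HasRightDual X]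
    (hunit : ∀ f : 𝟙_ 𝒜 ⟶ 𝟙_ 𝒜, ∃ q : ℚ, f = q • 𝟙 (𝟙_ 𝒜))
    {K : Type w} [Field K] [CharZero K] (F : GradedRealisation 𝒜 K)
    (M N : 𝒜) (n : ℕ) (hM : ∃ x : F.super.V M, x ≠ 0) (hN : ∃ y : F.super.V N, y ≠ 0) :
    (F.grading.ChowKunneth (T M (n + 1) ⊗ N) → F.super.NilpotentKernel (T M (n + 1) ⊗ N) →
      (F.grading.ChowKunneth M ∧ F.super.NilpotentKernel M) ∧
        (F.grading.ChowKunneth N ∧ F.super.NilpotentKernel N)) ∧
    (KimuraFinite (T M (n + 1) ⊗ N) → F.grading.KunnethAlgebraic (T M (n + 1) ⊗ N) →
      F.grading.ChowKunneth M ∧ F.grading.ChowKunneth N) := by
  refine ⟨fun h hnil => chowKunneth_factors F hunit M N n hM hN h hnil, fun h h' => ?_⟩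
  have hnil := nilpotentKernel_of_kimuraFinite F hunit h
  have := chowKunneth_factors F hunit M N n hM hN (chowKunneth_of_kunnethAlgebraic F h' hnil) hnil
  exact ⟨this.1.1, this.2.1⟩

end Pool.Agent.Results.MP_524776_ag.TensorFactors
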