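import Pool.Agent.TH116.ZC.Exist

/-!
# Chow-Kunneth decompositions and nilpotence on zero-cycles

`𝒱` is a class of smooth projective geometrically irreducible varieties over the field `k` closed
under products (for example all of them, with `k = ℂ`), `C` the Chow groups with rational
coefficients (in the form of their formal properties, `IsChowProj`) and `H` a Weil cohomology theory
(`IsWeilProj`). The hypothesis `HasGenericPoints` is the theorem of Bloch and Srinivas, which holds
over uncountable algebraically closed fields.

(1) The homologically trivial self-correspondences of degree zero are nilpotent, for all `X`, if and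
only if they act locally nilpotently on the groups `CH_0(X)` of zero-cycles, for all `X`.

(2) If they do, then a variety `X` has a Chow-Kunneth decomposition if and only if the Kunneth
components of its diagonal are algebraic.

Proof of (1). We show by induction on `n` that `c ∈ CH^d(W × W)` is nilpotent if it is homologically
trivial and factors as a sum of compositions `g_s ∘ f_s` through varieties `D_s` of dimension `n`.
The varieties `D_s` can be embedded in one variety `W'` (a product of all of them): there are
correspondences `D_s → W' → D_s` which induce the identity on the homologically trivial zero-cycles of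
`D_s` and which are orthogonal for different `s`. The sum of the compositions
`W' → D_t → W → W → D_s → W'` (with `c` in the middle) is homologically trivial, hence locally
nilpotent on zero-cycles, and it follows that `c` is locally nilpotent on `CH^n(W)`. Let `η` be a
generic zero-cycle of `D_s`; then `(c^m ∘ g_s)_* η = 0` for large `m`, so `c^m ∘ g_s` factors through
varieties of dimension `n - 1` by the theorem of Bloch and Srinivas, and so does `c^(m + 1)`. For
`n = 0` one has `c ∘ g_s ∈ CH^0`, and this is zero. The theorem is the case `n = d`.
-/

open CategoryTheory AlgebraicGeometry

set_option autoImplicit false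

universe u v w

namespace Pool.Agent.Results.MP_524776_ag.ZeroCycleNilpotence

open Pool.Agent.H914 Pool.Agent.W492.BB Pool.Agent.TH133 Pool.Agent.TH116.ZC

/-- Over an uncountable algebraically closed field (used through `HasGenericPoints`): homologically
trivial correspondences are nilpotent if and only if they are locally nilpotent on zero-cycles; in
this case `X` has a Chow-Kunneth decomposition if and only if the Kunneth components of its diagonal
are algebraic. -/
theorem result {k : Type u} [Field k] {𝒱 : VarClass k} (C : TheoryData.{u, v, 0} 𝒱 ℚ)
    [IsChowProj C] {K : Type w} [Field K] (H : WeilTheoryData.{u, v, w} C K) [IsWeilProj H]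
    (hG : HasGenericPoints C) :
    ((∀ X : 𝒱.Obj, HomTrivialNilpotentOnZeroCycles H X) ↔
      ∀ X : 𝒱.Obj, HomTrivialNilpotent H X) ∧
    ((∀ X : 𝒱.Obj, HomTrivialNilpotentOnZeroCycles H X) →
      ∀ X : 𝒱.Obj, (∃ π : ℕ → C.A (X.prod X), IsCK H X π) ↔ HasKunneth H X) :=
  ⟨nilpotent_iff_zeroCycles hG, exists_CK_iff_of_zeroCycles hG⟩

end Pool.Agent.Results.MP_524776_ag.ZeroCycleNilpotence
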